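import Pool.Agent.R425.D.Thm

/-!
# Rational points and finite descent over Galois 2-extensions, for subvarieties of products of
# elliptic curves

Let `E_1, …, E_n` be elliptic curves over `ℚ` with trivial 2-Selmer groups over `ℚ`, whose points of
odd order over `ℚ_2` are all rational, for example `X_0(11)`.  Let `K` be any Galois extension of `ℚ` of
degree a power of two, which need not be abelian, ramified only at primes `l` of good reduction such that
the number of the points of every `E_i` over `ℤ/l` is odd, and in which the primes dividing the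
discriminants and two split completely (and which is totally real if one of the discriminants is
positive).  Let `X` be any closed subset of `E_1 × … × E_n` defined over `K`, for instance the image of a
curve of genus at least two.

Theorem.  (1) If `v` is a place of `K` above two and if the point `P` of `X(K_v)` is the component at
`v` of a point which survives all the descents by `2 ^ k`-coverings, then `P` is a `K`-rational
point of `X`.  So this is true for the components at `v` of all the points in the Brauer-Manin set.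
(2) If `X(K)` is empty then for some `k` the `2 ^ k`-Selmer set of `X` over `K` is empty.

Nothing is assumed about the Tate-Shafarevich groups of the `E_i` over `K`: for the 2-primary parts what
is needed is proved, and the other parts are not used.

The proof.  By the results on 2-Selmer groups over Galois 2-extensions (`R425/P`, `R425/T`, `Y702`)
`E_i(K)` is finite of odd order and `Ш(E_i/K)[2] = 0`; so a `2 ^ k`-covering with points over all
completions is the trivial one, and a point over `K_v` which lifts to it is divisible by `2 ^ k`.  As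
`K_v = ℚ_2`, a point divisible by all powers of two has odd order, so it is rational.  For (2) we use
the compactness of `X(ℚ_2)`.
-/

set_option autoImplicit false

open IsDedekindDomain NumberField WeierstrassCurve MvPolynomial Pool.Agent.TH954

open scoped Classical

namespace Pool.Agent.Results.MP_ab3ecb_nt.GaloisTwoExtensions

section descent

variable {K : Type} [Field K] {n : ℕ}

/-- The `L`-rational points of the closed subset `X` of `E_1 × … × E_n` defined by the equations in
`S` in the homogeneous coordinates of the `n` points. -/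
def LocalPoints (E : Fin n → WeierstrassCurve K) (S : Set (MvPolynomial (Fin n × Fin 3) K))
    (L : Type) [Field L] [Algebra K L] : Set ((i : Fin n) → ((E i).baseChange L).toAffine.Point) :=
  {P | OnX S (fun i => crd (P i))}

/-- The `K`-rational points of `X`. -/
def RationalPoints (E : Fin n → WeierstrassCurve K) (S : Set (MvPolynomial (Fin n × Fin 3) K)) :
    Set ((i : Fin n) → (E i).toAffine.Point) :=
  {y | ∀ f ∈ S, eval (fun p => crd (y p.1) p.2) f = 0}

/-- The `L`-rational point `P` of `E_1 × … × E_n` lifts to an `L`-rational point of the `N`-covering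
given by the cocycles `ξ i`: there are points `Q i` over the algebraic closure with `N • Q i = P i`
on which the Galois group of `L` acts by translation by the `ξ i`. -/
def Lifts (E : Fin n → WeierstrassCurve K) (N : ℕ)
    (ξ : (i : Fin n) → (AlgebraicClosure K ≃ₐ[K] AlgebraicClosure K) → AlgPt (E i) K)
    (L : Type) [Field L] [Algebra K L] (P : (i : Fin n) → ((E i).baseChange L).toAffine.Point) :
    Prop :=
  ∃ (ι : AlgebraicClosure K →ₐ[K] AlgebraicClosure L) (Q : (i : Fin n) → AlgPt (E i) L),
    (∀ i, N • Q i = incl (E i) L (P i)) ∧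
      ∀ i σ τ, Compat ι σ τ → pm (E i) ι (ξ i τ) = act (E i) σ (Q i) - Q i

/-- The `N`-Selmer set of `X`: the `N`-coverings of `E_1 × … × E_n` over `K` whose pull-backs to `X`
have points over all the completions of `K`. -/
def SelmerSet [NumberField K] (E : Fin n → WeierstrassCurve K)
    (S : Set (MvPolynomial (Fin n × Fin 3) K)) (N : ℕ) :
    Set ((i : Fin n) → (AlgebraicClosure K ≃ₐ[K] AlgebraicClosure K) → AlgPt (E i) K) :=
  {ξ | (∀ i, IsCocycle (E i) (ξ i)) ∧ (∀ i σ, N • ξ i σ = 0) ∧
    (∀ v : HeightOneSpectrum (𝓞 K), ∃ P ∈ LocalPoints E S (v.adicCompletion K),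
      Lifts E N ξ (v.adicCompletion K) P) ∧
    ∀ w : InfinitePlace K, ∃ P ∈ LocalPoints E S w.Completion, Lifts E N ξ w.Completion P}

end descent

/-- The 2-Selmer group of `W` over `ℚ` is trivial: `W(ℚ)` is finite of odd order and `Ш(W/ℚ)` has no
element of order two. -/
def TrivialTwoSelmer (W : WeierstrassCurve ℤ) : Prop :=
  Finite (W.map (Int.castRingHom ℚ)).toAffine.Point ∧
  Odd (Nat.card (W.map (Int.castRingHom ℚ)).toAffine.Point) ∧
  ∀ s : Pool.Agent.TH841.NF.D.Sha (W.map (Int.castRingHom ℚ)), 2 • s = 0 → s = 0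

/-- All the points of odd order of `W(ℚ_2)` are rational. -/
def OddOrderRational (W : WeierstrassCurve ℤ) : Prop :=
  ∀ (P : (W.map (Int.castRingHom ℚ_[2])).toAffine.Point) (m : ℕ), Odd m → m • P = 0 →
    ∃ y : (W.map (Int.castRingHom ℚ)).toAffine.Point, ∀ j, crd P j = algebraMap ℚ ℚ_[2] (crd y j)

/-- `W` is an elliptic curve `y² = x³ + a x + b` with integral coefficients. -/
def IsShort (W : WeierstrassCurve ℤ) : Prop := (W.a₁ = 0 ∧ W.a₂ = 0 ∧ W.a₃ = 0) ∧ W.Δ ≠ 0

/-- The number of the points of `W` over `ℤ/l`, with the point at infinity. -/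
noncomputable def pointCount (W : WeierstrassCurve ℤ) (l : ℕ) : ℕ :=
  Nat.card {P : ZMod l × ZMod l //
    (W.map (Int.castRingHom (ZMod l))).toAffine.Equation P.1 P.2} + 1

/-- `K` is a Galois extension of `ℚ` of degree a power of two, ramified only at primes `l ∤ 2 ∏ Δ_i` such
that the numbers of the points of the curves over `ℤ/l` are odd; the prime ideals containing
`2 ∏ Δ_i` have residue degree one (and, `K` being Galois and unramified at them, these primes split
completely); and if one of the discriminants is positive then `K` is totally real. -/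
structure IsTwoExtension {n : ℕ} (W : Fin n → WeierstrassCurve ℤ) (K : Type) [Field K]
    [NumberField K] : Prop where
  galois : IsGalois ℚ K
  degree : ∃ j, Module.finrank ℚ K = 2 ^ j
  ramified : ∀ l : ℕ, l.Prime → (l : ℤ) ∣ NumberField.discr K →
    ¬ (l : ℤ) ∣ 2 * ∏ i, (W i).Δ ∧ ∀ i, Odd (pointCount (W i) l)
  split : ∀ v : HeightOneSpectrum (𝓞 K), ((2 * ∏ i, (W i).Δ : ℤ) : 𝓞 K) ∈ v.asIdeal →
    (Ideal.absNorm v.asIdeal).Prime
  real : ∀ i, 0 < (W i).Δ → ∀ v : InfinitePlace K, v.IsReal

/-- The curve `y² = x³ - 13392 x - 1080432`, a short equation of `X_0(11)`. -/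
def X11 : WeierstrassCurve ℤ := ⟨0, 0, 0, -13392, -1080432⟩

section

variable {K : Type} [Field K] [NumberField K] {n : ℕ}

lemma sel_iff (E : Fin n → WeierstrassCurve K) (S : Set (MvPolynomial (Fin n × Fin 3) K)) (N : ℕ) :
    SelmerSet E S N = Pool.Agent.R425.D.SelSet E S N := by
  ext ξ
  have key : ∀ (L : Type) [Field L] [Algebra K L],
      (∃ P ∈ LocalPoints E S L, Lifts E N ξ L P) ↔ Pool.Agent.R425.D.CovPt E S N ξ L := by
    intro L _ _
    constructor
    · rintro ⟨P, hP, ι, Q, h1, h2⟩
      exact ⟨ι, P, Q, hP, h1, h2⟩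
    · rintro ⟨ι, P, Q, hP, h1, h2⟩
      exact ⟨P, hP, ι, Q, h1, h2⟩
  constructor
  · rintro ⟨h1, h2, h3, h4⟩
    exact ⟨h1, h2, fun v => (key _).1 (h3 v), fun w => (key _).1 (h4 w)⟩
  · rintro ⟨h1, h2, h3, h4⟩
    exact ⟨h1, h2, fun v => (key _).2 (h3 v), fun w => (key _).2 (h4 w)⟩

lemma ext_of {W : Fin n → WeierstrassCurve ℤ} (h : IsTwoExtension W K) :
    Pool.Agent.R425.D.TwoExt W K :=
  ⟨h.galois, h.degree, h.ramified, h.split, h.real⟩

end

theorem result :
    (∀ (n : ℕ) (W : Fin n → WeierstrassCurve ℤ), (∀ i, IsShort (W i)) →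
      (∀ i, TrivialTwoSelmer (W i)) → (∀ i, OddOrderRational (W i)) →
      ∀ (K : Type) [Field K] [NumberField K], IsTwoExtension W K →
      ∀ S : Set (MvPolynomial (Fin n × Fin 3) K), (∀ f ∈ S, ∃ d, MultiHom d f) →
        (∀ v : HeightOneSpectrum (𝓞 K), ((2 : ℕ) : 𝓞 K) ∈ v.asIdeal →
          ∀ P ∈ LocalPoints (fun i => (W i).map (Int.castRingHom K)) S (v.adicCompletion K),
            (∀ k : ℕ, ∃ ξ ∈ SelmerSet (fun i => (W i).map (Int.castRingHom K)) S (2 ^ k),
              Lifts (fun i => (W i).map (Int.castRingHom K)) (2 ^ k) ξ (v.adicCompletion K) P) →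
            ∃ y ∈ RationalPoints (fun i => (W i).map (Int.castRingHom K)) S,
              ∀ i j, crd (P i) j = algebraMap K (v.adicCompletion K) (crd (y i) j)) ∧
        (RationalPoints (fun i => (W i).map (Int.castRingHom K)) S = ∅ →
          ∃ k : ℕ, SelmerSet (fun i => (W i).map (Int.castRingHom K)) S (2 ^ k) = ∅)) ∧
    (IsShort X11 ∧ TrivialTwoSelmer X11 ∧ OddOrderRational X11) := by
  refine ⟨?_, ?_, ?_, ?_⟩
  · intro n W hW hT hR K _ _ hK S hS
    have hΔ : ∀ i, (W i).Δ ≠ 0 := fun i => (hW i).2
    refine ⟨fun v hv P hP h => ?_, fun hX => ?_⟩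
    · obtain ⟨y, hy1, hy2⟩ := Pool.Agent.R425.D.thmV1 (fun i => (hW i).1) hΔ hT hR (ext_of hK) S v hv
        P hP (fun k => by
          obtain ⟨ξ, hξ, h1⟩ := h k
          exact ⟨ξ, by rw [← sel_iff]; exact hξ, h1⟩)
      exact ⟨y, hy1, hy2⟩
    · obtain ⟨k, hk⟩ := Pool.Agent.R425.D.thmV2 (fun i => (hW i).1) hΔ hT hR (ext_of hK) S hS
        (fun y hy => by
          have : y ∈ (∅ : Set _) := by
            rw [← hX]
            exact hy
          exact this)
      exact ⟨k, by rw [sel_iff]; exact hk⟩
  · exact ⟨⟨rfl, rfl, rfl⟩, Pool.Agent.R425.D.disc11⟩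
  · exact Pool.Agent.R425.D.sel11s
  · exact Pool.Agent.R425.D.oddRat11

end Pool.Agent.Results.MP_ab3ecb_nt.GaloisTwoExtensions
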