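import Pool.Agent.R432.JG.Common
import Pool.Agent.R432.JG.Loc6

/-!
# Rational points and finite descent over `ℚ(ω, ∛l : l ∈ M)`, for closed subvarieties of products of the
# curves `y² + D y = x³`

`E_D : y² + D y = x³` (`3`-isogenous to `x³ + y³ = D`).  `M` is any finite set of primes `≡ 1` modulo
`9`, `n = #M`, and `Ω = ℚ(ω, ∛l : l ∈ M)`, a Galois extension of `ℚ` of degree `2 · 3 ^ n`, not abelian if
`n > 0`.  `D` runs through the squarefree numbers, prime to `3` and to `M`, not `±1` modulo `9`, that are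
divisible by exactly one prime `2` modulo `3`, ordered by size.  `D` is good if for all the `3 ^ n` cubic
twists `E_{D'}`, `D' = D ∏ l^{t_l}`, the group `E_{D'}(ℚ)` is finite and `Ш(E_{D'} / ℚ)[3^∞] = 0`.

Theorem.  (0) The proportion of the good `D` tends exactly to `c ^ {3 ^ n}`,
`c = ∏_{i ≥ 1} (1 - 3^{-i}) = 0.5601...`.  Let `D_1, …, D_m` be any good numbers and let `X` be any closed
subset of `E_{D_1} × … × E_{D_m}` defined over `Ω`, for instance the image of a curve of genus at least two.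
Let `v` be a place of `Ω` above three.

(1) If the point `P` of `X(Ω_v)` is the component at `v` of a point which survives all the descents by
`3 ^ k`-coverings, then `2 P` is rational over `Ω` (in fact over `ℚ`); if no `D_i` is `±2` modulo `9`, then
`P` is in `X(Ω)`.  So this is true for the components at `v` of all the points in the Brauer-Manin set.

(2) If `X(Ω_v)` contains no point `P` such that `2 P` is rational, then for some `k` the `3 ^ k`-Selmer set
of `X` over `Ω` is empty.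

(3) If no `D_i` is `±2` modulo `9` and `X(Ω)` is empty then for some `k` the `3 ^ k`-Selmer set of `X` over
`Ω` is empty.

Nothing is assumed about the Tate-Shafarevich groups over `Ω`, which may be nontrivial.

The proof.  By project JL (see `MP_f50388_nt/FixedCubicRadicalFields`) we have (0), and the descent shows
that for good `D` the group `E_D(Ω)` is finite and `Ш(E_D / Ω)[3^∞]` is killed by `3 ^ n`.  So `3 ^ n` times
a `3 ^ k`-covering with points over all completions comes from a point `y` of `E_D(Ω)`, and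
`3 ^ n P = y + 3 ^ k z` if `P` lifts to it.  As `E_D(Ω)` is finite, `3 ^ n P - y` is infinitely divisible by
three for one `y`, so that `P` has finite order.  The completions of `Ω` at the places above three are all
equal to `ℚ_3(ω)`, as the `l ∈ M` are cubes in `ℚ_3`.  Over this field the points of order prime to
three have order at most two (none if `D` is not `±2` modulo `9`, computation of helper419, `R419/ST`),
and the points of three-power order are the three points `O`, `(0, 0)`, `(0, -D)`, by complex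
multiplication and because `D` is not a cube.
-/

set_option autoImplicit false

open IsDedekindDomain NumberField WeierstrassCurve MvPolynomial Pool.Agent.TH954 Filter Topology

open scoped Classical

namespace Pool.Agent.Results.MP_ab3ecb_nt.RadicalClosureDescent

section descent

variable {K : Type} [Field K] {n : ℕ}

/-- The `L`-rational points of the closed subset `X` of `E_1 × … × E_n` defined by the equations in
`S` in the homogeneous coordinates of the `n` points. -/
def LocalPoints (E : Fin n → WeierstrassCurve K) (S : Set (MvPolynomial (Fin n × Fin 3) K))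
    (L : Type) [Field L] [Algebra K L] : Set ((i : Fin n) → ((E i).baseChange L).toAffine.Point) :=
  {P | OnX S (fun i => crd (P i))}

/-- The `K`-rational points of `X`. -/
def RationalPoints (E : Fin n → WeierstrassCurve K) (S : Set (MvPolynomial (Fin n × Fin 3) K)) :
    Set ((i : Fin n) → (E i).toAffine.Point) :=
  {y | ∀ f ∈ S, eval (fun p => crd (y p.1) p.2) f = 0}

/-- The `L`-rational point `P` of `E_1 × … × E_n` lifts to an `L`-rational point of the `N`-covering
given by the cocycles `ξ i`: there are points `Q i` over the algebraic closure with `N • Q i = P i`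
on which the Galois group of `L` acts by translation by the `ξ i`. -/
def Lifts (E : Fin n → WeierstrassCurve K) (N : ℕ)
    (ξ : (i : Fin n) → (AlgebraicClosure K ≃ₐ[K] AlgebraicClosure K) → AlgPt (E i) K)
    (L : Type) [Field L] [Algebra K L] (P : (i : Fin n) → ((E i).baseChange L).toAffine.Point) :
    Prop :=
  ∃ (ι : AlgebraicClosure K →ₐ[K] AlgebraicClosure L) (Q : (i : Fin n) → AlgPt (E i) L),
    (∀ i, N • Q i = incl (E i) L (P i)) ∧
      ∀ i σ τ, Compat ι σ τ → pm (E i) ι (ξ i τ) = act (E i) σ (Q i) - Q i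

/-- The `N`-Selmer set of `X`: the `N`-coverings of `E_1 × … × E_n` over `K` whose pull-backs to `X`
have points over all the completions of `K`. -/
def SelmerSet [NumberField K] (E : Fin n → WeierstrassCurve K)
    (S : Set (MvPolynomial (Fin n × Fin 3) K)) (N : ℕ) :
    Set ((i : Fin n) → (AlgebraicClosure K ≃ₐ[K] AlgebraicClosure K) → AlgPt (E i) K) :=
  {ξ | (∀ i, IsCocycle (E i) (ξ i)) ∧ (∀ i σ, N • ξ i σ = 0) ∧
    (∀ v : HeightOneSpectrum (𝓞 K), ∃ P ∈ LocalPoints E S (v.adicCompletion K),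
      Lifts E N ξ (v.adicCompletion K) P) ∧
    ∀ w : InfinitePlace K, ∃ P ∈ LocalPoints E S w.Completion, Lifts E N ξ w.Completion P}

/-- The `L`-rational point `P` of `E` is rational over `K`: it has the coordinates of a point of
`E(K)`. -/
def IsRational (E : WeierstrassCurve K) (L : Type) [Field L] [Algebra K L]
    (P : (E.baseChange L).toAffine.Point) : Prop :=
  ∃ y : E.toAffine.Point, ∀ j, crd P j = algebraMap K L (crd y j)

end descent

/-- The curve `E_D : y² + D y = x³` over `L`. -/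
def curve (D : ℕ) (L : Type) [Field L] : WeierstrassCurve L := ⟨0, 0, (D : L), 0, 0⟩

/-- `D` is squarefree, not divisible by `3`, not `±1` modulo `9`, not divisible by the elements of `M`,
and divisible by exactly one prime that is `2` modulo `3`. -/
def InClass (M : Finset ℕ) (D : ℕ) : Prop :=
  Squarefree D ∧ ¬ 3 ∣ D ∧ D % 9 ≠ 1 ∧ D % 9 ≠ 8 ∧ (∀ l ∈ M, ¬ l ∣ D) ∧
    ∃ q : ℕ, q.Prime ∧ q % 3 = 2 ∧ q ∣ D ∧ ∀ p : ℕ, p.Prime → p ∣ D → p ≠ q → p % 3 = 1

/-- The number `D ∏_{l ∈ M} l ^ (t l)` with exponents `0`, `1`, `2`. -/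
def twist (M : Finset ℕ) (D : ℕ) (t : {l : ℕ // l ∈ M} → ZMod 3) : ℕ :=
  D * ∏ l : {l : ℕ // l ∈ M}, l.1 ^ (t l).val

/-- `E_D(ℚ)` is finite and the `3`-primary part of `Ш(E_D / ℚ)` is zero. -/
def TrivialThree (D : ℕ) : Prop :=
  Finite (curve D ℚ).toAffine.Point ∧
    ∀ (n : ℕ) (x : Pool.Agent.TH841.SH.D.Sha (curve D ℚ)), 3 ^ n • x = 0 → x = 0

/-- All the `3 ^ n` cubic twists of `E_D` by the numbers with prime factors in `M` have this property. -/
def Good (M : Finset ℕ) (D : ℕ) : Prop :=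
  ∀ t : {l : ℕ // l ∈ M} → ZMod 3, TrivialThree (twist M D t)

/-- `Ω` is generated by `ω` and cube roots of the elements of `M`. -/
def Closure (M : Finset ℕ) (Ω : Type) [Field Ω] : Prop :=
  ∃ (ω : Ω) (r : ℕ → Ω), ω ^ 2 + ω + 1 = 0 ∧ (∀ l ∈ M, r l ^ 3 = (l : Ω)) ∧
    ∀ S : Subfield Ω, ω ∈ S → (∀ l ∈ M, r l ∈ S) → S = ⊤

section statements

variable {Ω : Type} [Field Ω] [NumberField Ω] {m : ℕ}

/-- The curves `E_{D_1}, …, E_{D_m}` over `Ω`. -/
def curves (D : Fin m → ℕ) (Ω : Type) [Field Ω] (i : Fin m) : WeierstrassCurve Ω := curve (D i) Ω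

/-- No `D_i` is `±2` modulo `9`. -/
def NotTwo (D : Fin m → ℕ) : Prop := ∀ i, D i % 9 ≠ 2 ∧ D i % 9 ≠ 7

/-- For some `k` the `3 ^ k`-Selmer set of `X` is empty. -/
def EmptySelmer (D : Fin m → ℕ) (S : Set (MvPolynomial (Fin m × Fin 3) Ω)) : Prop :=
  ∃ k : ℕ, SelmerSet (curves D Ω) S (3 ^ k) = ∅

/-- The point `P` of `X(Ω_v)` lifts for each `k` to some covering in the `3 ^ k`-Selmer set of `X`. -/
def Survives (D : Fin m → ℕ) (S : Set (MvPolynomial (Fin m × Fin 3) Ω))
    (v : HeightOneSpectrum (𝓞 Ω))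
    (P : (i : Fin m) → ((curves D Ω i).baseChange (v.adicCompletion Ω)).toAffine.Point) : Prop :=
  ∀ k : ℕ, ∃ ξ ∈ SelmerSet (curves D Ω) S (3 ^ k),
    Lifts (curves D Ω) (3 ^ k) ξ (v.adicCompletion Ω) P

/-- The point `2 P` is rational over `Ω`. -/
def DoubleRational (D : Fin m → ℕ) (v : HeightOneSpectrum (𝓞 Ω))
    (P : (i : Fin m) → ((curves D Ω i).baseChange (v.adicCompletion Ω)).toAffine.Point) : Prop :=
  ∀ i, IsRational (curves D Ω i) (v.adicCompletion Ω) (2 • P i)

/-- If `P` in `X(Ω_v)` survives, then `2 P` is rational, and `P` comes from a point of `X(Ω)` if no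
`D_i` is `±2` modulo `9`. -/
def SurvivorsRational (D : Fin m → ℕ) (S : Set (MvPolynomial (Fin m × Fin 3) Ω))
    (v : HeightOneSpectrum (𝓞 Ω)) : Prop :=
  ∀ P ∈ LocalPoints (curves D Ω) S (v.adicCompletion Ω), Survives D S v P →
    DoubleRational D v P ∧
    (NotTwo D → ∃ y ∈ RationalPoints (curves D Ω) S,
      ∀ i j, crd (P i) j = algebraMap Ω (v.adicCompletion Ω) (crd (y i) j))

/-- If `X(Ω_v)` has no point `P` such that `2 P` is rational then some Selmer set is empty. -/
def HasseDouble (D : Fin m → ℕ) (S : Set (MvPolynomial (Fin m × Fin 3) Ω))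
    (v : HeightOneSpectrum (𝓞 Ω)) : Prop :=
  (∀ P ∈ LocalPoints (curves D Ω) S (v.adicCompletion Ω), ¬ DoubleRational D v P) →
    EmptySelmer D S

/-- If `X(Ω)` is empty then some Selmer set is empty. -/
def Hasse (D : Fin m → ℕ) (S : Set (MvPolynomial (Fin m × Fin 3) Ω)) : Prop :=
  RationalPoints (curves D Ω) S = ∅ → EmptySelmer D S

end statements

/-- The number of the `D ≤ X` in the class with the property `Q`. -/
noncomputable def num (M : Finset ℕ) (Q : ℕ → Prop) (X : ℕ) : ℕ :=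
  ((Finset.Icc 1 X).filter fun D => InClass M D ∧ Q D).card

/-- `c = ∏_{i ≥ 1} (1 - 3^{-i})`. -/
noncomputable def c : ℝ := ∏' i : ℕ, (1 - (1 / 3 : ℝ) ^ (i + 1))

section

open Pool.Agent.R432.JG (Cl cl_iff triv_iff tw_cls pre_of twN all_goodK law_cnt)
open Pool.Agent.R413.MQ.Bin (cnt cnt_card cnt_congr)

variable {M : Finset ℕ}

theorem num_eq (Q : ℕ → Prop) (X : ℕ) : num M Q X = cnt (Cl M) Q X := by
  unfold num
  symm
  refine cnt_card fun D => ?_
  rw [Finset.mem_filter, show InClass M D ↔ Cl M D from (cl_iff M D).symm]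

theorem good_iff (hM : ∀ l ∈ M, l.Prime ∧ l % 9 = 1) {D : ℕ} (hD : Cl M D) :
    Good M D ↔ ∀ t : {l : ℕ // l ∈ M} → ZMod 3, Pool.Agent.Y703.CT.NoSplit (twN D M t) := by
  have h1 : ∀ t : {l : ℕ // l ∈ M} → ZMod 3,
      TrivialThree (twist M D t) ↔ Pool.Agent.Y703.CT.NoSplit (twN D M t) := fun t =>
    triv_iff (tw_cls (t := t) hD.2.1 (pre_of hM hD))
  unfold Good
  exact forall_congr' h1

theorem over_clo (hM : ∀ l ∈ M, l.Prime ∧ l % 9 = 1) {D : ℕ} (hD : Cl M D) (hg : Good M D)
    (Ω : Type) [Field Ω] [NumberField Ω] (hΩ : Closure M Ω) :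
    Module.finrank ℚ Ω = 2 * 3 ^ M.card ∧ Finite (curve D Ω).toAffine.Point ∧
    ∀ (n : ℕ) (x : Pool.Agent.TH841.NF.D.Sha (curve D Ω)), 3 ^ n • x = 0 → 3 ^ M.card • x = 0 := by
  obtain ⟨ω, r, h1, h2, h3⟩ := hΩ
  exact all_goodK hD.2.1 (pre_of hM hD) ((good_iff hM hD).1 hg) ω h1 r h2 h3

variable {K : Type} [Field K] {n : ℕ}

lemma sel_iff [NumberField K] (E : Fin n → WeierstrassCurve K)
    (S : Set (MvPolynomial (Fin n × Fin 3) K)) (N : ℕ) :
    SelmerSet E S N = Pool.Agent.R419.ST.SelSet E S N := by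
  ext ξ
  have key : ∀ (L : Type) [Field L] [Algebra K L],
      (∃ P ∈ LocalPoints E S L, Lifts E N ξ L P) ↔ Pool.Agent.R419.ST.CovPt E S N ξ L := by
    intro L _ _
    constructor
    · rintro ⟨P, hP, ι, Q, h1, h2⟩
      exact ⟨ι, P, Q, hP, h1, h2⟩
    · rintro ⟨ι, P, Q, hP, h1, h2⟩
      exact ⟨P, hP, ι, Q, h1, h2⟩
  constructor
  · rintro ⟨h1, h2, h3, h4⟩
    exact ⟨h1, h2, fun v => (key _).1 (h3 v), fun w => (key _).1 (h4 w)⟩
  · rintro ⟨h1, h2, h3, h4⟩
    exact ⟨h1, h2, fun v => (key _).2 (h3 v), fun w => (key _).2 (h4 w)⟩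

/-- points of `X` over a completion with rational coordinates are rational points of `X` -/
lemma rational_of (E : Fin n → WeierstrassCurve K) (S : Set (MvPolynomial (Fin n × Fin 3) K))
    (L : Type) [Field L] [Algebra K L] (P : (i : Fin n) → ((E i).baseChange L).toAffine.Point)
    (hP : P ∈ LocalPoints E S L) (y : (i : Fin n) → (E i).toAffine.Point)
    (h : ∀ i j, crd (P i) j = algebraMap K L (crd (y i) j)) : y ∈ RationalPoints E S := by
  intro f hf
  have h1 := hP f hf
  have e : (fun p : Fin n × Fin 3 => crd (P p.1) p.2) =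
      fun p => algebraMap K L (crd (y p.1) p.2) := by
    funext p
    exact h p.1 p.2
  rw [aeval_def, e] at h1
  have h2 : eval₂ (algebraMap K L) (fun p => algebraMap K L (crd (y p.1) p.2)) f =
      algebraMap K L (eval (fun p => crd (y p.1) p.2) f) :=
    (eval₂_comp_left (algebraMap K L) (RingHom.id K) _ f).symm
  rw [h2, map_eq_zero] at h1
  exact h1

end

open Pool.Agent.R432.JG (Cl cl_iff law_cnt)
open Pool.Agent.R413.MQ.Bin (cnt cnt_card cnt_congr)

/-- **Main theorem.** -/
theorem result (M : Finset ℕ) (hM : ∀ l ∈ M, l.Prime ∧ l % 9 = 1) :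
    ((0.56 : ℝ) < c ∧
      Tendsto (fun X : ℕ => (num M (Good M) X : ℝ) / (num M (fun _ => True) X : ℝ)) atTop
        (𝓝 (c ^ 3 ^ M.card)) ∧
      ∃ a : ℝ, 0 < a ∧ ∃ X₀ : ℕ, ∀ X : ℕ, X₀ ≤ X →
        a * X / Real.sqrt (Real.log X) ≤ (num M (Good M) X : ℝ)) ∧
    ∀ (Ω : Type) [Field Ω] [NumberField Ω], Closure M Ω →
      (∀ D : ℕ, InClass M D → Good M D → Module.finrank ℚ Ω = 2 * 3 ^ M.card) ∧
      ∀ (m : ℕ) (D : Fin m → ℕ), (∀ i, InClass M (D i) ∧ Good M (D i)) →
      ∀ S : Set (MvPolynomial (Fin m × Fin 3) Ω), (∀ f ∈ S, ∃ d, MultiHom d f) →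
      ∀ v : HeightOneSpectrum (𝓞 Ω), ((3 : ℕ) : 𝓞 Ω) ∈ v.asIdeal →
        SurvivorsRational D S v ∧ HasseDouble D S v ∧ (NotTwo D → Hasse D S) := by
  have hc1 : (0.56 : ℝ) < c := Pool.Agent.R432.JG.c3_gt
  have hc0 : 0 < c := by linarith
  have hcard : (Finset.univ : Finset ({l : ℕ // l ∈ M} → ZMod 3)).card = 3 ^ M.card := by
    rw [Finset.card_univ, Fintype.card_fun, ZMod.card, Fintype.card_coe]
  have hlaw : Tendsto (fun X : ℕ => (num M (Good M) X : ℝ) / (num M (fun _ => True) X : ℝ)) atTop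
      (𝓝 (c ^ 3 ^ M.card)) := by
    have h := law_cnt hM Finset.univ
    rw [hcard] at h
    refine h.congr fun X => ?_
    rw [num_eq, num_eq]
    congr 2
    refine cnt_congr (fun D hD => ?_) X
    rw [good_iff hM hD]
    simp
  have e2 : ∀ X, (num M (fun _ => True) X : ℝ) =
      (((Finset.Icc 1 X).filter fun D => Cl M D).card : ℝ) := by
    intro X
    have : num M (fun _ => True) X = ((Finset.Icc 1 X).filter fun D => Cl M D).card := by
      rw [num_eq]
      refine Pool.Agent.R413.MQ.Bin.cnt_card fun D => ?_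
      rw [Finset.mem_filter, and_iff_left trivial]
    rw [this]
  refine ⟨⟨hc1, hlaw, ?_⟩, fun Ω _ _ hΩ => ⟨fun D hD hg =>
    (over_clo hM ((cl_iff M D).2 hD) hg Ω hΩ).1, fun m D hD S hS v hv => ?_⟩⟩
  · have hp : 0 < c ^ 3 ^ M.card := by positivity
    obtain ⟨X₀, h⟩ := Filter.eventually_atTop.1
      ((hlaw.eventually (lt_mem_nhds (half_lt_self hp))).and (Pool.Agent.R432.JG.ev_pos hM))
    obtain ⟨c₀, hc₀, X₁, h1⟩ := Pool.Agent.R432.JG.low hM
    refine ⟨c ^ 3 ^ M.card / 2 * c₀, by positivity, max X₀ X₁, fun X hX => ?_⟩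
    obtain ⟨h2, h3⟩ := h X ((le_max_left _ _).trans hX)
    have h4 := h1 X ((le_max_right _ _).trans hX)
    rw [← e2] at h3 h4
    rw [lt_div_iff₀ h3] at h2
    have h5 : c ^ 3 ^ M.card / 2 * c₀ * X / Real.sqrt (Real.log X) =
        c ^ 3 ^ M.card / 2 * (c₀ * X / Real.sqrt (Real.log X)) := by ring
    rw [h5]
    exact (mul_le_mul_of_nonneg_left h4 (by positivity)).trans h2.le
  · have hov := fun i => over_clo hM ((cl_iff M (D i)).2 (hD i).1) (hD i).2 Ω hΩ
    obtain ⟨ω, ρ, h1, h2, h3⟩ := hΩ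
    have h9 : ∀ l ∈ M, l % 9 = 1 := fun l hl => (hM l hl).2
    have d3 : ∀ i, ¬ 3 ∣ D i := fun i => (hD i).1.2.1
    have d1 : ∀ i, D i % 9 ≠ 1 := fun i => (hD i).1.2.2.1
    have d8 : ∀ i, D i % 9 ≠ 8 := fun i => (hD i).1.2.2.2.1
    have hfin : ∀ i, Finite (Pool.Agent.R432.JG.Dsc.EN Ω (D i)).toAffine.Point := fun i =>
      (hov i).2.1
    have hsha : ∀ i, Pool.Agent.R432.JG.Dsc.ShaN M.card (Pool.Agent.R432.JG.Dsc.EN Ω (D i)) :=
      fun i => (hov i).2.2
    have tB := Pool.Agent.R432.JG.Loc6.thmB h9 h1 h2 h3 d3 d1 d8 hfin hsha S hS v hv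
    refine ⟨fun P hP hlift => ?_, fun hX => ?_, fun h27 hX => ?_⟩
    · have hA := Pool.Agent.R432.JG.Loc6.thmA h9 h1 h2 h3 d3 d1 d8 hfin hsha S v hv P (fun k => by
        obtain ⟨ξ, hξ, h4⟩ := hlift k
        exact ⟨ξ, by rw [← sel_iff]; exact hξ, h4⟩)
      refine ⟨fun i => (hA i).1, fun h27 => ?_⟩
      have h4 := fun i => (hA i).2 (h27 i).1 (h27 i).2
      choose y hy using h4
      exact ⟨y, rational_of (curves D Ω) S (v.adicCompletion Ω) P hP y hy, hy⟩
    · obtain ⟨k, hk⟩ := tB (fun P hP h => hX P hP fun i => (h i).1)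
      exact ⟨k, by rw [sel_iff]; exact hk⟩
    · obtain ⟨k, hk⟩ := tB (fun P hP h => by
        have h4 := fun i => (h i).2 (h27 i).1 (h27 i).2
        choose y hy using h4
        have h5 : y ∈ RationalPoints (curves D Ω) S :=
          rational_of (curves D Ω) S (v.adicCompletion Ω) P hP y hy
        rw [hX] at h5
        exact h5)
      exact ⟨k, by rw [sel_iff]; exact hk⟩

end Pool.Agent.Results.MP_ab3ecb_nt.RadicalClosureDescent
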