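import Pool.Agent.Results.MP_ab3ecb_nt.SuperellipticTwists
import Pool.Agent.R482.ST.Mills
import Mathlib.Algebra.Polynomial.Cardinal

/-!
# The Brauer-Manin set of all superelliptic curves `d yᵐ = f(x)` with `d` near `α ^ (3 ^ n)` is empty

Let `v_n ≥ 1` be reals and let `L_n ≥ 1` be such that the sums of `L_n v_n ^ (-t)` converge for all `t > 0` (`v_n = 3 ^ n` as in
Mills's theorem, or `v_n = exp (√n)`, and `L_n = n ^ A`). For almost every `α > 1` and ALL families `f` of polynomials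
(irreducible, of even degrees, pairwise non-associated), for all but finitely many `n`: for ALL integers `d ≠ 0` with
`||d| - α ^ (v_n)| ≤ L_n` and ALL even `m` (in particular those dividing the sum of the degrees, when the curve is a smooth
curve in a weighted projective plane) every adelic point of the curve `d yᵐ = ∏ k, F k (x, w)` is obstructed by one of the
classes `(F k, e)`, `e` a nonzero integer, of the Brauer group, so that the Brauer-Manin set of the curve is empty and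
Stoll's conjecture holds for it. In particular this holds for `d = ± ⌊α ^ (3 ^ n)⌋`.
-/

set_option autoImplicit false

namespace Pool.Agent.Results.MP_ab3ecb_nt.TwistsNearPowers

open MeasureTheory Filter Topology Polynomial Pool.Agent.W313.BMX
open SuperellipticTwists (ex AdelicCoverPoint OrthogonalCover coverValue CoverPoint)

lemma isSquare_of_mul_sq {a m : ℤ} (hm : m ≠ 0) (h : IsSquare (a * m ^ 2)) : IsSquare a := by
  obtain ⟨r, hr⟩ := h
  have h1 : m ^ 2 ∣ r ^ 2 := ⟨a, by rw [pow_two r, ← hr]; ring⟩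
  have h2 : m ∣ r := (Int.pow_dvd_pow_iff two_ne_zero).1 h1
  obtain ⟨t, rfl⟩ := h2
  refine ⟨t, ?_⟩
  have h3 : m ^ 2 * a = m ^ 2 * (t * t) := by rw [← mul_comm a, hr]; ring
  exact mul_left_cancel₀ (pow_ne_zero 2 hm) h3

lemma sel_sq {K : Type} [Fintype K] {f : K → ℤ[X]} {s m : ℤ} (hm : m ≠ 0)
    (h : Pool.Agent.W262.TW.Sel f (s * m ^ 2)) : Pool.Agent.W262.TW.Sel f s := by
  obtain ⟨δ, h1, h2, h3, h4⟩ := h
  refine ⟨δ, h1, isSquare_of_mul_sq hm ?_, h3, h4⟩
  rw [show s * m ^ 2 * ∏ k, δ k = s * (∏ k, δ k) * m ^ 2 by ring] at h2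
  exact h2

/-- **Theorem.** Let `v_n ≥ 1`, `L_n ≥ 1` be reals such that the sums of `L_n v_n ^ (-t)` converge for all `t > 0`. There is a null
set `Z` such that for all `α > 1` outside `Z` and ALL families `f` of polynomials with the property `Admissible`, for all
but finitely many `n`, for ALL integers `d ≠ 0` with `||d| - α ^ (v_n)| ≤ L_n` and ALL even `m` no adelic point of the
curve `d y ^ m = ∏ k, F k (x, w)` is orthogonal to all the classes `(F k, e)`; the sets of places with nontrivial local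
invariant are finite. The family `ex` is admissible, and all of its curves have adelic points. -/
theorem result :
    (∀ v L : ℕ → ℝ, (∀ n, 1 ≤ v n) → (∀ n, 1 ≤ L n) → (∀ t : ℝ, 0 < t → Summable fun n => L n * (v n) ^ (-t)) →
      ∃ Z : Set ℝ, volume Z = 0 ∧ ∀ α : ℝ, 1 < α → α ∉ Z → ∀ (r : ℕ) (f : Fin r → ℤ[X]), Admissible f →
        ∃ n₀ : ℕ, ∀ n : ℕ, n₀ ≤ n → ∀ d : ℤ, d ≠ 0 → |(|d| : ℝ) - α ^ (v n)| ≤ L n →
          ∀ m : ℕ, Even m → ∀ P : AdelicCoverPoint f d m, ¬ OrthogonalCover P) ∧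
    (∀ (r : ℕ) (f : Fin r → ℤ[X]), Admissible f → ∀ (d : ℤ) (m : ℕ), d ≠ 0 → Even m →
      ∀ (P : AdelicCoverPoint f d m) (k : Fin r) (e : ℤ), e ≠ 0 →
        (ram ⟨coverValue P.re k, fun p => coverValue (P.pa p) k⟩ e).Finite) ∧
    (Admissible ex ∧ ∀ (d : ℤ) (m : ℕ), m ≠ 0 → Nonempty (AdelicCoverPoint ex d m)) := by
  refine ⟨fun v L hv hL hs => ?_, fun r f hf => (SuperellipticTwists.result.1 (Fin r) f hf).2,
    SuperellipticTwists.result.2⟩
  have : Countable ℤ[X] := by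
    rw [← Cardinal.mk_le_aleph0_iff]
    exact Polynomial.cardinalMk_le_max.trans (by simp)
  have hone : ∀ F : (Σ r : ℕ, (Fin r → ℤ[X])), ∃ Z : Set ℝ, volume Z = 0 ∧ (Admissible F.2 →
      ∀ α : ℝ, 1 < α → α ∉ Z → ∃ n₀ : ℕ, ∀ n : ℕ, n₀ ≤ n → ∀ d : ℤ, d ≠ 0 → |(|d| : ℝ) - α ^ (v n)| ≤ L n →
          ∀ m : ℕ, Even m → ∀ P : AdelicCoverPoint F.2 d m, ¬ OrthogonalCover P) := by
    rintro ⟨r, f⟩
    by_cases hf : Admissible f
    · obtain ⟨δ, hδ, C, hC⟩ := Pool.Agent.W262.TW.fin3_all (Fin r) f hf.1 hf.2.1 hf.2.2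
      obtain ⟨Z, hZ, hw⟩ := Pool.Agent.R482.ST.mills_twists (fun d => Pool.Agent.W262.TW.Sel f d) hδ 3
        (fun X hX => hC X hX) hv hL (hs δ hδ)
      refine ⟨Z, hZ, fun _ α hα hαZ => ?_⟩
      obtain ⟨n₀, hn⟩ := hw α hα hαZ
      refine ⟨n₀, fun n hn1 d hd hdw m' hm' P hP => ?_⟩
      have h3 := sel f hf d hd ⟨P.re.image hm', fun p => (P.pa p).image hm'⟩ hP
      obtain ⟨s, m, h4, h5, h6⟩ := Pool.Agent.R482.ST.sf_decomp d hd
      rw [h6] at h3
      refine hn n hn1 s m h4 h5 ?_ (sel_sq (by omega) h3)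
      rw [h6] at hdw
      push_cast at hdw
      exact hdw
    · exact ⟨∅, measure_empty, fun h => absurd h hf⟩
  choose Z hZ h using hone
  refine ⟨⋃ F, Z F, measure_iUnion_null hZ, fun α hα hαZ r f hf => ?_⟩
  rw [Set.mem_iUnion] at hαZ
  push Not at hαZ
  exact h ⟨r, f⟩ hf α hα (hαZ ⟨r, f⟩)

end Pool.Agent.Results.MP_ab3ecb_nt.TwistsNearPowers
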