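import Pool.Agent.R925.FD.Two
import Pool.Agent.R925.FD.BM

/-!
# Adelic points of almost all twists of a cyclic covering are of the type of a rational point

Let `b y ^ 2 = ∏ k, G k (z, w)` be a hyperelliptic curve `D` over `ℚ`, where the `G k` are the
homogenisations of polynomials `g k` with integral coefficients, of even degrees, pairwise coprime.
Let `h` be a polynomial with integral coefficients, coprime to the `g k`, and `H` its homogenisation.
For a squarefree integer `a` and `m ≥ 2`, `m ∣ deg h`, consider the curve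

  `C a : b y ^ 2 = ∏ k, G k (z, w)`, `a x ^ m = H (z, w)`.

It is a cyclic covering of degree `m` of `D`, and for different `a` these coverings are twists of each
other. Examples are the curves `b y ^ 2 = ∏ g k (a x ^ m)`, twists of the curve `b y ^ 2 = ∏ g k (x ^ m)`
by its automorphisms of order `m` (`h = z (z - 1) ^ (m - 1)` after a change of the coordinate; the
points with `x = 0, ∞` are those over the zeros of `h`).

The classes of the quaternion algebras `(G k, e)`, `e` a nonzero integer, are unramified on `D`, so they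
define elements of the Brauer group of `C a`. We call an adelic point of `C a` orthogonal if the sum of
the local invariants of each of these classes is zero. The type of a point over a field is the family
of the values of the `G k` modulo squares.

Consider the integral zeros `α` of `h` for which `b ∏ g k (α)` is a square: over them there are rational
points of `C a`, `x = 0`, for all `a`. We prove that for all squarefree `a`, `|a| ≤ X`, with at most
`C X (log X) ^ (-κ)` exceptions, `κ > 0`, every orthogonal adelic point of `C a` (all `m`) has at all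
places the type of one of these rational points (the same point for all places), if this holds for the
persistent classes, that is, the families `δ k` of nonzero rational numbers with `∏ δ k = b t ^ 2` such
that every automorphism `σ` of the field of algebraic numbers fixes a zero `β` of `h` and numbers `y k`
with `g k (β) = δ k * y k ^ 2`. We prove that this condition is satisfied if the zeros of `h` are one
or two integers (with any multiplicities), for example for the curves `b y ^ 2 = ∏ g k (a x ^ m)`.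

So for almost all `a` the rational points are dense in the Brauer-Manin set of `C a` as far as the
types can see, without assumptions on the Jacobian. In addition (for all squarefree `a`) the
component at a prime divisor `p` of `a` is close to the points over the zeros of `h`: its
`z`-coordinate reduces to a zero of `h` modulo `p`.
-/

set_option autoImplicit false

namespace Pool.Agent.Results.MP_ab3ecb_nt.TypesOfOrthogonalPoints

open Polynomial Pool.Agent.R925.FD
open Pool.Agent.W313.BMX (ram)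

/-- The conditions on the polynomials: nonzero, the `g k` of even degrees, pairwise coprime over `ℚ`
and coprime to `h`. -/
structure Admissible {K : Type} (b : ℤ) (g : K → ℤ[X]) (h : ℤ[X]) : Prop where
  b_ne : b ≠ 0
  g_ne : ∀ k, g k ≠ 0
  h_ne : h ≠ 0
  deg : ∀ k, 2 ∣ (g k).natDegree
  coprime : ∀ k l, k ≠ l →
    IsCoprime ((g k).map (Int.castRingHom ℚ)) ((g l).map (Int.castRingHom ℚ))
  coprime_h : ∀ k, IsCoprime (h.map (Int.castRingHom ℚ)) ((g k).map (Int.castRingHom ℚ))

/-- The components of the adelic point `P` have the type of the rational point `Q`: the quotients of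
the values of the `G k` are squares. -/
def SameType {K : Type} [Fintype K] [DecidableEq K] {m : ℕ} {b a : ℤ} {g : K → ℤ[X]} {h : ℤ[X]}
    (P : AdelicPoint m b a g h) (Q : Point m b a g h ℚ) : Prop :=
  (∀ k, IsSquare (value P.re k * ((value Q k : ℚ) : ℝ))) ∧
    ∀ k (p : Nat.Primes), IsSquare (value (P.pa p) k * ((value Q k : ℚ) : ℚ_[(p : ℕ)]))

/-- Every persistent class is the class of an integral zero of `h`. -/
def OnlyZeros {K : Type} [Fintype K] (b : ℤ) (g : K → ℤ[X]) (h : ℤ[X]) : Prop :=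
  ∀ δ : K → ℚ, IsClass 2 b δ → Persistent 2 g h δ →
    ∃ α : ℤ, h.eval α = 0 ∧ ∀ k, IsSquare (δ k * ((g k).eval α : ℤ))

lemma hom_int (f : ℤ[X]) (α : ℤ) : hom f (α : ℚ) 1 = ((f.eval α : ℤ) : ℚ) := by
  rw [hom_one]
  have h6 := eval₂_at_apply (p := f) (Int.castRingHom ℚ) α
  rw [eq_intCast, eq_intCast] at h6
  exact h6

lemma isSquare_cast {F : Type} [Field F] [CharZero F] {v : F} {n : ℤ} (hn : n ≠ 0) {q : ℚ}
    (hv : IsSquare (v * (n : F))) (hq : IsSquare ((n : ℚ) * q)) : IsSquare (v * ((q : ℚ) : F)) := by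
  obtain ⟨r, hr⟩ := hv
  obtain ⟨s, hs⟩ := hq
  have hn' : (n : F) ≠ 0 := Int.cast_ne_zero.2 hn
  have hs' : (n : F) * (q : F) = (s : F) * (s : F) := by exact_mod_cast congrArg (Rat.cast (K := F)) hs
  refine ⟨r * s / n, ?_⟩
  have h1 : v * (q : F) * (n : F) ^ 2 = (r * s) * (r * s) := by
    calc v * (q : F) * (n : F) ^ 2 = (v * n) * (n * q) := by ring
      _ = (r * s) * (r * s) := by rw [hr, hs']; ring
  field_simp
  linear_combination h1

lemma reduces_zero {m : ℕ} (hm : 2 ≤ m) {h : ℤ[X]} (hdegh : m ∣ h.natDegree) {p : ℕ}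
    [hp : Fact p.Prime] {a : ℤ} (ha : Squarefree a) (hpa : (p : ℤ) ∣ a) {z w x : ℚ_[p]}
    (hzw : z ≠ 0 ∨ w ≠ 0) (hx : (a : ℚ_[p]) * x ^ m = hom h z w) :
    ∃ (c : ℚ_[p]) (z' w' : ℤ_[p]), c ≠ 0 ∧ c * z = z' ∧ c * w = w' ∧
      (PadicInt.toZMod z' ≠ 0 ∨ PadicInt.toZMod w' ≠ 0) ∧
      hom h (PadicInt.toZMod z') (PadicInt.toZMod w') = 0 := by
  obtain ⟨c, z', w', hc, hz, hw, hu⟩ := primitive hzw
  refine ⟨c, z', w', hc, hz, hw, hu, ?_⟩
  by_contra hk
  rw [← hom_map] at hk
  obtain ⟨e, he⟩ := hdegh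
  have h1 : ((hom h z' w' : ℤ_[p]) : ℚ_[p]) = (a : ℚ_[p]) * (c ^ e * x) ^ m := by
    rw [hom_coe, ← hz, ← hw, hom_mul, ← hx, he, mul_pow, ← pow_mul, mul_comm e m]
    ring
  have h2 := val_of_toZMod hk
  have h3 := coe_ne_zero_of hk
  rw [h1] at h2 h3
  have h4 : (c ^ e * x) ^ m ≠ 0 := right_ne_zero_of_mul h3
  have ha0 : (a : ℚ_[p]) ≠ 0 := left_ne_zero_of_mul h3
  have hva : (a : ℚ_[p]).valuation = 1 := by
    obtain ⟨q, hq⟩ := hpa
    have hpq : ¬ (p : ℤ) ∣ q := by
      intro h5
      obtain ⟨q', hq'⟩ := h5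
      have h6 : IsUnit (p : ℤ) := ha p ⟨q', by rw [hq, hq']; ring⟩
      exact (Nat.prime_iff_prime_int.1 hp.out).not_isUnit h6
    have hq0 : (q : ℚ_[p]) ≠ 0 := by
      intro h5
      apply ha0
      rw [hq, Int.cast_mul, h5, mul_zero]
    have hp0 : (p : ℚ_[p]) ≠ 0 := by exact_mod_cast hp.out.ne_zero
    rw [hq, Int.cast_mul, Int.cast_natCast, Padic.valuation_mul hp0 hq0, Padic.valuation_p,
      Padic.valuation_intCast, padicValInt.eq_zero_of_not_dvd hpq]
    rfl
  rw [Padic.valuation_mul ha0 h4, Padic.valuation_pow, hva] at h2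
  have h5 : (m : ℤ) ∣ 1 := ⟨-(c ^ e * x).valuation, by linarith⟩
  have h6 := Int.le_of_dvd one_pos h5
  omega

theorem result :
    ∀ (K : Type) [Fintype K] [DecidableEq K] (b : ℤ) (g : K → ℤ[X]) (h : ℤ[X]), Admissible b g h →
      (OnlyZeros b g h →
        ∃ κ : ℝ, 0 < κ ∧ ∃ C : ℝ, ∀ X : ℕ, 3 ≤ X →
          ({a : ℤ | a.natAbs ≤ X ∧ Squarefree a ∧ ∃ m, 2 ≤ m ∧ m ∣ h.natDegree ∧
            ∃ P : AdelicPoint m b a g h, Orthogonal P ∧
              ¬ ∃ Q : Point m b a g h ℚ, Q.x = 0 ∧ Q.w = 1 ∧ (∃ α : ℤ, Q.z = α) ∧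
                SameType P Q}.ncard : ℝ) ≤ C * X * (Real.log X) ^ (-κ)) ∧
      (∀ α₁ α₂ : ℤ, (∀ β : AlgebraicClosure ℚ, aeval β h = 0 ↔ β = α₁ ∨ β = α₂) →
        OnlyZeros b g h) ∧
      (∀ (m : ℕ) (a : ℤ) (P : AdelicPoint m b a g h) (k : K) (e : ℤ), e ≠ 0 →
        (ram (values P k) e).Finite) ∧
      ∀ (m : ℕ) (a : ℤ), 2 ≤ m → m ∣ h.natDegree → Squarefree a →
        ∀ (p : ℕ) [Fact p.Prime], (p : ℤ) ∣ a → ∀ P : Point m b a g h ℚ_[p],
          ∃ (c : ℚ_[p]) (z w : ℤ_[p]), c ≠ 0 ∧ c * P.z = z ∧ c * P.w = w ∧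
            (PadicInt.toZMod z ≠ 0 ∨ PadicInt.toZMod w ≠ 0) ∧
            hom h (PadicInt.toZMod z) (PadicInt.toZMod w) = 0 := by
  classical
  intro K _ _ b g h hA
  have hg : ∀ (k : K) (α : ℤ), h.eval α = 0 → (g k).eval α ≠ 0 := by
    intro k α hα hgα
    refine coprime_field hA.h_ne (hA.coprime_h k) (F := ℚ) (z := (α : ℚ)) (w := 1)
      (Or.inr one_ne_zero) ?_ ?_
    · rw [hom_int, hα, Int.cast_zero]
    · rw [hom_int, hgα, Int.cast_zero]
  refine ⟨fun hOZ => ?_, fun α₁ α₂ hz δ hδ hper => ?_, fun m a P k e he =>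
    ram_finite hA.b_ne hA.g_ne hA.h_ne hA.deg hA.coprime hA.coprime_h P k e he, ?_⟩
  · obtain ⟨κ, hκ, C, hC⟩ := bm_main hA.b_ne hA.g_ne hA.h_ne hA.deg hA.coprime hA.coprime_h
    refine ⟨κ, hκ, C, fun X hX => le_trans ?_ (hC X hX)⟩
    refine Nat.cast_le.2 (Set.ncard_le_ncard ?_ ?_)
    · rintro a ⟨h1, h2, m, hm, hmh, P, hP, hno⟩
      refine ⟨h1, h2, m, hm, hmh, P, hP, ?_⟩
      rintro ⟨n, hn1, hn2, hper, hn3, hn4⟩
      apply hno
      obtain ⟨α, hα, hsq⟩ := hOZ _ hn2 hper
      -- the rational point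
      have hgne : ∀ k, hom (g k) (α : ℚ) 1 ≠ 0 := fun k => by
        rw [hom_int]
        exact Int.cast_ne_zero.2 (hg k α hα)
      have hyex : ∃ y : ℚ, (b : ℚ) * y ^ 2 = ∏ k, hom (g k) (α : ℚ) 1 := by
        obtain ⟨t, ht⟩ := hn2.2
        choose r hr using hsq
        have h3 : (∏ k, (n k : ℚ)) * ∏ k, hom (g k) (α : ℚ) 1 = (∏ k, r k) * ∏ k, r k := by
          rw [← Finset.prod_mul_distrib, ← Finset.prod_mul_distrib]
          refine Finset.prod_congr rfl fun k _ => ?_
          rw [hom_int]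
          exact hr k
        have hb : (b : ℚ) ≠ 0 := Int.cast_ne_zero.2 hA.b_ne
        have hn0 : ∏ k, (n k : ℚ) ≠ 0 := Finset.prod_ne_zero_iff.2 fun k _ => hn2.1 k
        have ht0 : t ≠ 0 := by
          rintro rfl
          rw [zero_pow two_ne_zero, mul_zero] at ht
          exact hn0 ht
        rw [ht] at h3
        refine ⟨(∏ k, r k) / (b * t), ?_⟩
        rw [div_pow, sq (∏ k, r k), ← h3]
        field_simp
      obtain ⟨y, hy⟩ := hyex
      refine ⟨⟨α, 1, 0, y, Or.inr one_ne_zero, hy, ?_⟩, rfl, rfl, ⟨α, rfl⟩, ?_⟩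
      · rw [hom_int, hα, zero_pow (by omega : m ≠ 0), mul_zero, Int.cast_zero]
      · have hval : ∀ k, value (⟨α, 1, 0, y, Or.inr one_ne_zero, hy, by
            rw [hom_int, hα, zero_pow (by omega : m ≠ 0), mul_zero, Int.cast_zero]⟩ :
            Point m b a g h ℚ) k = ((g k).eval α : ℤ) := by
          intro k
          have h4 := cval_of_ne (b := b) (hgne k)
          rw [hom_int] at h4
          exact h4
        refine ⟨fun k => ?_, fun k p => ?_⟩
        · rw [hval]
          exact isSquare_cast (hn1 k).ne_zero (hn3 k) (hsq k)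
        · rw [hval]
          exact isSquare_cast (hn1 k).ne_zero (hn4 k p) (hsq k)
    · apply (Set.finite_Icc (-(X : ℤ)) X).subset
      intro d hd
      have h1 : d.natAbs ≤ X := hd.1
      rw [Set.mem_Icc]
      omega
  · have hzero : ∀ α : ℤ, aeval (α : AlgebraicClosure ℚ) h = 0 → h.eval α = 0 := by
      intro α hα
      have h6 := aeval_algebraMap_apply_eq_algebraMap_eval (A := AlgebraicClosure ℚ) α h
      rw [eq_intCast, eq_intCast, hα] at h6
      exact_mod_cast h6.symm
    have hα₁ := hzero α₁ ((hz α₁).2 (Or.inl rfl))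
    have hα₂ := hzero α₂ ((hz α₂).2 (Or.inr rfl))
    rcases persistent_two g h α₁ α₂ (fun β hβ => (hz β).1 hβ) (fun k => hg k α₁ hα₁)
      (fun k => hg k α₂ hα₂) δ hδ.1 hper with h6 | h6
    · exact ⟨α₁, hα₁, h6⟩
    · exact ⟨α₂, hα₂, h6⟩
  · intro m a hm hmh ha p hp hpa P
    exact reduces_zero hm hmh ha hpa P.ne P.eq₂

end Pool.Agent.Results.MP_ab3ecb_nt.TypesOfOrthogonalPoints
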